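import Pool.Agent.R184.PolyFinal

set_option autoImplicit false

namespace Pool.Agent.Results.MP_0f5321_co.NoInfiniteWinningTeam

open Pool.Agent.R184.Poly

/-- Every team of finite polyominoes which is a winner of the weak `(1,2)`-achievement game has
only finitely many elements. -/
theorem result : ¬ ∃ F : Set (Finset Cell), IsTeam F ∧ F.Infinite ∧ Winner F := by
  rintro ⟨F, hteam, hinf, hF⟩
  exact hinf (no_infinite_winner hteam hF)

end Pool.Agent.Results.MP_0f5321_co.NoInfiniteWinningTeam
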